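import Mathlib
import Pool.Agent.Helper916.SymBilDefs
import Pool.Agent.Helper916.SymBilLemmas
import Pool.Agent.Helper916.SymBilTie
import Pool.Agent.Helper916.SymBilNon2
import Pool.Agent.Helper916.SymBilRat
import Pool.Agent.Helper916.SymBilV

set_option autoImplicit false

namespace Pool.Agent.Results.MP_93b186_an.ThreeDirections

open Pool.Agent.Helper916.SymBil

/-- Let `P` be an affine image of the polygon `0 ≤ x ≤ w`, `0 ≤ y ≤ h`, `c ≤ x + y ≤ N` (every convex
polygon whose sides have at most three directions is of this form).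

First part: every symplectic billiard orbit of `P` defined for all times is periodic if
(1) `c = 0` and `N < w + h` (triangles, trapezoids, all pentagons with three side directions), or
(2) `N = c + w` and `c < h` (hexagons in which two of the three strips have equal width), or
(3) `w, h, N, c` are integer multiples of one number.

Second part: on the family of hexagons with three pairs of parallel sides given by `w < h`,
`N < 2 w`, `0 < N - c - w ≤ N - h ≤ c` (these parameters have non-empty interior), every orbit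
defined for all times is periodic if and only if `(N - c - w) / (h - w)` is a rational number.

Third part: on the family of hexagons given by `N < 2 w`, `N - c < h`, `c + w < h`, `2 c + w ≤ N`
(again with non-empty interior), every orbit defined for all times is periodic. -/
theorem result (e : (ℝ × ℝ) ≃ᵃ[ℝ] (ℝ × ℝ)) (w h N c : ℝ) (w0 : 0 < w) (h0 : 0 < h) (c0 : 0 ≤ c)
    (cw : c ≤ w) (ch : c ≤ h) (wN : w ≤ N) (hN : h ≤ N) (Nw : N ≤ w + h) (cN : c < N) :
    (((c = 0 ∧ N < w + h) ∨ (N = c + w ∧ c < h) ∨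
      ∃ r : ℝ, 0 < r ∧ ∃ i j k l : ℤ, w = r * i ∧ h = r * j ∧ N = r * k ∧ c = r * l) →
      ∀ x : ℤ → ℝ × ℝ, IsOrbit (e '' Hex w h N c) x → ∃ k : ℤ, 0 < k ∧ ∀ i, x (i + k) = x i) ∧
    (w < h → N < 2 * w → 0 < N - c - w → N - c - w ≤ N - h → N - h ≤ c →
      ((∀ x : ℤ → ℝ × ℝ, IsOrbit (e '' Hex w h N c) x →
          ∃ k : ℤ, 0 < k ∧ ∀ i, x (i + k) = x i) ↔
        ∃ q : ℚ, (q : ℝ) = (N - c - w) / (h - w))) ∧
    (N < 2 * w → N - c < h → c + w < h → 2 * c + w ≤ N →
      ∀ x : ℤ → ℝ × ℝ, IsOrbit (e '' Hex w h N c) x →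
        ∃ k : ℤ, 0 < k ∧ ∀ i, x (i + k) = x i) := by
  refine ⟨?_, ?_, ?_⟩
  · intro hcase x hx
    obtain ⟨k, hk, h1⟩ := hex_periodic2 w h N c w0 h0 c0 cw ch wN hN Nw cN hcase _
      (orbit_pull e _ x hx)
    exact ⟨k, hk, fun i => e.symm.injective (h1 i)⟩
  · intro g1 g2 g3 g4 g5
    constructor
    · intro hall
      by_contra hirr
      obtain ⟨x, hx, hn⟩ := nonper_image e w h N c w0 g1 g2 g3 g4 g5 (by
        intro m l hm heq
        apply hirr
        refine ⟨(l : ℚ) / m, ?_⟩
        have hm' : (m : ℝ) ≠ 0 := by exact_mod_cast hm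
        have hh : h - w ≠ 0 := by
          have : 0 < h - w := by linarith
          exact this.ne'
        push_cast
        rw [div_eq_div_iff hm' hh, ← heq]
        ring)
      exact hn (hall x hx)
    · intro hq x hx
      obtain ⟨k, hk, h1⟩ := rat_periodic ⟨w0, h0, c0, cw, ch, wN, hN, Nw, cN⟩ g1 g2 g3 g4 g5 hq _
        (orbit_pull e _ x hx)
      exact ⟨k, hk, fun i => e.symm.injective (h1 i)⟩
  · intro g1 g2 g3 g4 x hx
    have P : Prm w h N c := ⟨w0, h0, c0, cw, ch, wN, hN, Nw, cN⟩
    obtain ⟨k, hk, h1⟩ := main_closed P (fun p hp => v_fin P g1 g2 g3 g4 p hp) _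
      (orbit_pull e _ x hx)
    exact ⟨k, hk, fun i => e.symm.injective (h1 i)⟩

end Pool.Agent.Results.MP_93b186_an.ThreeDirections
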